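import Pool.Agent.PST.StmtsUD
import Pool.Agent.Helper30_PSS.S3All

set_option autoImplicit false

open scoped BigOperators TensorProduct PowerSeries

noncomputable section

namespace Pool.Agent.PST.UC.H95

open Pool.Agent.PFC (tw IsTv)
open Pool.Agent.PFD.D2b (FrR)
open Pool.Agent.PSS
open Pool.Agent.PSS.S0
open Pool.Agent.PST
open Pool.Agent.PST.UC

/-- the size of a transversal of a proper subgroup is zero in characteristic `ℓ` -/
theorem card_tv (hFCO : FcoStmt) (ℓ : ℕ) [Fact ℓ.Prime] (F V : Type) [Field F] [CharP F ℓ]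
    [CommGroup V] [Finite V] (hV : IsPGroup ℓ V) (P' : Subgroup V) (S : Finset V)
    (hP : P' < ⊤) (hS : IsTv P' ⊤ S) : (S.card : F) = 0 := by
  let ρ : V →* (F →ₗ[F] F) := 1
  let act : MulAction V Unit :=
    { smul := fun _ t => t, one_smul := fun _ => rfl, mul_smul := fun _ _ _ => rfl }
  have hfr : FrR ρ (fun _ : Unit => (1 : F)) (fun _ => LinearMap.id) := by
    refine ⟨fun g t => rfl, fun g t n => rfl, fun n => ?_⟩
    change ∑ t : Unit, n • (1 : F) = n
    rw [Finset.univ_unique, Finset.sum_singleton, smul_eq_mul, mul_one]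
  have h1 : (S.card : F) ∈ BKR ρ ⊤ := by
    refine Submodule.subset_span ⟨P', S, 1, hP, hS, fun h _ => rfl, ?_⟩
    change (S.card : F) = ∑ _x ∈ S, (1 : F)
    rw [Finset.sum_const, nsmul_eq_mul, mul_one]
  exact hFCO ℓ F V F Unit ρ _ _ (CharP.cast_eq_zero F ℓ) hV hfr ⊤ _ h1 () (fun _ _ => rfl)

section

variable {R G A : Type} [CommRing R] [CommGroup G] [Ring A] [Algebra R A] (α : G →* A)

theorem comm_of_fx {a : A} (ha : a ∈ FxR (cw R α) ⊤) (g : G) : α g * a = a * α g := by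
  have h1 : α g * (a * α g⁻¹) = a := ha g (Subgroup.mem_top g)
  calc α g * a = α g * a * (α g⁻¹ * α g) := by
        rw [← map_mul, inv_mul_cancel, map_one, mul_one]
    _ = α g * (a * α g⁻¹) * α g := by simp only [mul_assoc]
    _ = a * α g := by rw [h1]

theorem fx_of_comm {a : A} (ha : ∀ g, α g * a = a * α g) : a ∈ FxR (cw R α) ⊤ := by
  intro g _
  change α g * (a * α g⁻¹) = a
  rw [← mul_assoc, ha, mul_assoc, ← map_mul, mul_inv_cancel, map_one, mul_one]

theorem fx_iff {a : A} : a ∈ FxR (cw R α) ⊤ ↔ ∀ g, α g * a = a * α g :=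
  ⟨comm_of_fx α, fx_of_comm α⟩

/-- the span of the commutators contains the image of the Brauer kernel -/
theorem civ_bk (hFCO : FcoStmt) (ℓ : ℕ) [Fact ℓ.Prime] (F V B H : Type) [Field F] [CharP F ℓ]
    [CommGroup V] [Finite V] [Ring B] [Algebra F B] [Ring H] [Algebra F H] (W : Subgroup V)
    (hV : IsPGroup ℓ V) (αB : V →* B) (αH : V ⧸ W →* H) (π : B →ₐ[F] H)
    (hQ : IsQt F αB W αH π) : ∀ m ∈ BKR (cw F αB) ⊤, π m ∈ Civ F αH := by
  intro m hm
  induction hm using Submodule.span_induction with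
  | mem m hm =>
    obtain ⟨P', S, m', hP, hS, _, rfl⟩ := hm
    rw [map_sum]
    have h1 : ∀ x ∈ S, π (cw F αB x m') =
        (αH (x : V ⧸ W) * (π m' * αH (x : V ⧸ W)⁻¹) -
          π m' * αH (x : V ⧸ W)⁻¹ * αH (x : V ⧸ W)) + π m' := by
      intro x _
      change π (αB x * (m' * αB x⁻¹)) = _
      have h2 : αH ((x : V ⧸ W)⁻¹) = π (αB x⁻¹) := hQ.om x⁻¹
      rw [map_mul, map_mul, ← hQ.om x, ← h2, mul_assoc (π m'), ← map_mul αH, inv_mul_cancel,
        map_one, mul_one, sub_add_cancel]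
    rw [Finset.sum_congr rfl h1, Finset.sum_add_distrib, Finset.sum_const, ← Nat.cast_smul_eq_nsmul F,
      card_tv hFCO ℓ F V hV P' S hP hS, zero_smul, add_zero]
    refine Submodule.sum_mem _ fun x _ => Submodule.subset_span ⟨(x : V ⧸ W), _, rfl⟩
  | zero =>
    rw [map_zero]
    exact Submodule.zero_mem _
  | add a b _ _ ha hb =>
    rw [map_add]
    exact Submodule.add_mem _ ha hb
  | smul r a _ ha =>
    rw [map_smul]
    exact Submodule.smul_mem _ _ ha

end

theorem qrg_aux (hFCO : FcoStmt) (hFBK : FbkStmt) (hBBK : BbkStmt) (hTFX : S3.TfxStmt) :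
    QrgStmt := by
  intro ℓ _ F V E A As B Bs H Hs _ _ _ _ _ _ _ _ _ _ _ _ _ _ _ _ _ _ φ α W _ _ ψ γ q αB β γB βs
    qB αH γH π πs q1 hV hpw hCl hper hq hq1 hB hBs hqB hQ hQs hqq hReg
  classical
  obtain ⟨r, la, χ, xx, t, D, lf, G, hD, hF⟩ := hReg
  have hE := hD.eg
  have hW : IsPGroup ℓ W := hV.to_subgroup W
  obtain ⟨htf, _⟩ := hTFX ℓ F W E As ψ γ hW hper
  -- the coordinates
  have hla1 : ∀ l, la l 1 = 0 := fun l => (hE.ker 1).1 W.one_mem l
  have hlaq : ∀ l (v v' : V), (v : V ⧸ W) = v' → la l v = la l v' := by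
    intro l v v' h
    have h1 : v⁻¹ * v' ∈ W := QuotientGroup.eq.1 h
    have h2 : v' = v * (v⁻¹ * v') := by rw [mul_inv_cancel_left]
    rw [h2, hE.add, (hE.ker _).1 h1 l, add_zero]
  have hout : ∀ v : V ⧸ W, ((Quotient.out v : V) : V ⧸ W) = v := fun v => QuotientGroup.out_eq' v
  have hlam : ∀ l (v : V), la l (Quotient.out (v : V ⧸ W)) = la l v :=
    fun l v => hlaq l _ _ (hout _)
  set la' : Fin r → V ⧸ W → F := fun l v => la l (Quotient.out v) with hla'
  set xx' : Fin r → V ⧸ W → F := fun l y => ∑ v : V, if (v : V ⧸ W) = y then xx l v else 0 with hxx'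
  have hsum : ∀ (N : Type) [AddCommGroup N] [Module F N] (l : Fin r) (f : V ⧸ W → N),
      ∑ y, xx' l y • f y = ∑ v : V, xx l v • f (v : V ⧸ W) := by
    intro N _ _ l f
    have h1 : ∀ y, xx' l y • f y = ∑ v : V, (if (v : V ⧸ W) = y then xx l v • f (v : V ⧸ W) else 0) := by
      intro y
      rw [hxx', Finset.sum_smul]
      refine Finset.sum_congr rfl fun v _ => ?_
      by_cases h : (v : V ⧸ W) = y
      · rw [if_pos h, if_pos h, h]
      · rw [if_neg h, if_neg h, zero_smul]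
    rw [Finset.sum_congr rfl fun y _ => h1 y, Finset.sum_comm]
    refine Finset.sum_congr rfl fun v _ => ?_
    rw [Finset.sum_ite_eq, if_pos (Finset.mem_univ _)]
  have hsumF : ∀ (l : Fin r) (f : V ⧸ W → F), ∑ y, xx' l y * f y = ∑ v : V, xx l v * f (v : V ⧸ W) :=
    fun l f => hsum F l f
  -- fixed elements of `As`
  have hXcomm : ∀ a : As, (∀ g, γ g * ((PowerSeries.X : F⟦X⟧) • a) = ((PowerSeries.X : F⟦X⟧) • a) * γ g) →
      ∀ g, γ g * a = a * γ g := by
    intro a ha g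
    have h1 := ha g
    rw [mul_smul_comm, smul_mul_assoc, ← sub_eq_zero, ← smul_sub] at h1
    exact sub_eq_zero.1 (htf _ h1)
  have hγγ : ∀ g h : W, γ g * γ h = γ h * γ g := by
    intro g h
    rw [← map_mul, ← map_mul, mul_comm]
  have hlf : ∀ u, ∀ g, γ g * lf u = lf u * γ g := fun u g => hF.cm u g
  have hlfp : ∀ u (n : ℕ), ∀ g, γ g * lf u ^ n = lf u ^ n * γ g := by
    intro u n g
    exact (Commute.pow_right (hlf u g : Commute (γ g) (lf u)) n)
  have hG : ∀ u, ∀ g, γ g * G u = G u * γ g := by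
    intro u
    apply hXcomm
    intro g
    have h1 := hF.pl u (hpw u)
    set c : W := ⟨u ^ ℓ, hpw u⟩ with hc
    have h2 : (PowerSeries.X : F⟦X⟧) • G u = γ c⁻¹ * lf u ^ ℓ - 1 := by
      rw [h1, ← mul_assoc, ← map_mul, inv_mul_cancel, map_one, one_mul, add_sub_cancel_left]
    rw [h2, mul_sub, sub_mul, mul_one, one_mul, ← mul_assoc, hγγ g, mul_assoc, hlfp, ← mul_assoc]
  have hfx : ∀ a : As, (∀ g, γ g * a = a * γ g) → a ∈ FxR (cw F⟦X⟧ γ) ⊤ := fun a ha =>
    fx_of_comm γ ha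
  -- the map `βs` on powers
  have hβp : ∀ a ∈ FxR (cw F⟦X⟧ γ) ⊤, ∀ n : ℕ, a ^ n ∈ FxR (cw F⟦X⟧ γ) ⊤ ∧ βs (a ^ n) = βs a ^ n := by
    intro a ha n
    induction n with
    | zero =>
      rw [pow_zero, pow_zero]
      exact ⟨fx_of_comm γ (fun g => by rw [mul_one, one_mul]), hBs.one⟩
    | succ n ih =>
      rw [pow_succ, pow_succ]
      have h1 := comm_of_fx γ ih.1
      have h2 := comm_of_fx γ ha
      refine ⟨fx_of_comm γ (fun g => by rw [← mul_assoc, h1, mul_assoc, h2, mul_assoc]), ?_⟩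
      rw [hBs.mul _ ih.1 _ ha, ih.2]
  have hfx1 : (1 : A) ∈ FxR (cw F α) W := by
    intro g _
    change α g * (1 * α g⁻¹) = 1
    rw [one_mul, ← map_mul, mul_inv_cancel, map_one]
  have hβ0 : β 0 = 0 := by
    have h1 := hB.smul 0 1 hfx1
    rw [zero_smul, zero_smul] at h1
    exact h1
  have hfxα : ∀ (v : V) (Q : Subgroup V), α v ∈ FxR (cw F α) Q := by
    intro v Q g _
    change α g * (α v * α g⁻¹) = α v
    rw [← map_mul, ← map_mul, mul_comm v, mul_inv_cancel_left]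
  have hmono : ∀ {a : A}, a ∈ FxR (cw F α) ⊤ → a ∈ FxR (cw F α) W :=
    fun {a} ha g hg => ha g (Subgroup.mem_top g)
  have hβX : ∀ (c : V → F) (s : Finset V), (∑ v ∈ s, c v • α v) ∈ FxR (cw F α) ⊤ ∧
      β (∑ v ∈ s, c v • α v) = ∑ v ∈ s, c v • αB v := by
    intro c s
    induction s using Finset.induction_on with
    | empty =>
      rw [Finset.sum_empty, Finset.sum_empty]
      exact ⟨Submodule.zero_mem _, hβ0⟩
    | insert a s ha ih =>
      rw [Finset.sum_insert ha, Finset.sum_insert ha]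
      have h1 : c a • α a ∈ FxR (cw F α) ⊤ := Submodule.smul_mem _ _ (hfxα a ⊤)
      refine ⟨Submodule.add_mem _ h1 ih.1, ?_⟩
      rw [hB.add _ (hmono h1) _ (hmono ih.1), hB.smul _ _ (hfxα a W), hB.om, ih.2]
  have hXβ : ∀ c : V → F, Xe α c ∈ FxR (cw F α) ⊤ ∧ β (Xe α c) = ∑ v, c v • αB v :=
    fun c => hβX c Finset.univ
  have hπX : ∀ u : V, π (β (Xe α (pg la xx t u))) =
      ∑ y, (∑ l, t l * la l u * xx' l y) • αH y := by
    intro u
    have h1 : ∀ v : V, π (pg la xx t u v • αB v) =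
        ∑ l, (t l * la l u) • (xx l v • αH (v : V ⧸ W)) := by
      intro v
      rw [map_smul, ← hQ.om v, pg, Finset.sum_smul]
      exact Finset.sum_congr rfl fun l _ => mul_smul _ _ _
    have h2 : ∀ y : V ⧸ W, (∑ l, t l * la l u * xx' l y) • αH y =
        ∑ l, (t l * la l u) • (xx' l y • αH y) := by
      intro y
      rw [Finset.sum_smul]
      exact Finset.sum_congr rfl fun l _ => mul_smul _ _ _
    rw [(hXβ (pg la xx t u)).2, map_sum, Finset.sum_congr rfl fun v _ => h1 v,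
      Finset.sum_congr rfl fun y _ => h2 y, Finset.sum_comm,
      Finset.sum_comm (s := (Finset.univ : Finset (V ⧸ W)))]
    refine Finset.sum_congr rfl fun l _ => ?_
    rw [← Finset.smul_sum, ← Finset.smul_sum, hsum]
  -- the Brauer map of the Brauer kernel
  have hβm : ∀ m ∈ FxR (cw F α) ⊤, m ∈ BKR (cw F α) (QW0 φ W) → π (β m) ∈ Civ F αH := by
    intro m hm hm'
    have h1 : m ∈ BKR (cw F α) ⊤ :=
      H28.bk_up α hFCO hFBK ℓ (CharP.cast_eq_zero F ℓ) hV φ hCl.per le_top hm' hm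
    obtain ⟨lam, K, _, x, y, hRF, _⟩ := hCl.rt
    have h2 := (hBBK ℓ F V E A B K φ α W αB β lam x y ⊤ (CharP.cast_eq_zero F ℓ) hV hCl.per hRF
      hB).1 m (by rw [top_sup_eq]; exact hm)
    rw [top_sup_eq] at h2
    exact civ_bk hFCO ℓ F V B H W hV αB αH π hQ _ (h2.2.2 h1)
  have hγ1 : ∀ w : W, πs (γB w) = 1 := by
    intro w
    rw [← hQs.om w, (QuotientGroup.eq_one_iff w).2 (Subgroup.mem_top w), map_one]
  have hqb : ∀ a ∈ FxR (cw F⟦X⟧ γ) ⊤, q1 (πs (βs a)) = π (β (q a)) := by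
    intro a ha
    rw [hqq, hqB a ha]
  refine ⟨r, la', xx', t, ?_, ?_, ?_, ?_, hE.t0, ?_, ?_⟩
  · intro l u v
    have h1 : ((Quotient.out u * Quotient.out v : V) : V ⧸ W) = u * v := by
      rw [QuotientGroup.mk_mul, hout, hout]
    change la l (Quotient.out (u * v)) = la l (Quotient.out u) + la l (Quotient.out v)
    rw [← hE.add, ← hlam l (Quotient.out u * Quotient.out v), h1]
  · intro μ hμ
    have hμ1 : μ 1 = 0 := by
      have h1 := hμ 1 1
      rw [mul_one] at h1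
      exact left_eq_add.1 h1
    refine ⟨fun l => ∑ u, xx l u * μ (u : V ⧸ W), fun v => ?_⟩
    have h1 := hE.spn (fun v => μ (v : V ⧸ W)) (fun u v => by rw [QuotientGroup.mk_mul, hμ])
      (fun w hw => by rw [(QuotientGroup.eq_one_iff w).2 hw, hμ1]) (Quotient.out v)
    rw [hout] at h1
    exact h1
  · intro l
    have h1 := hsumF l (fun _ => 1)
    simp only [mul_one] at h1
    rw [h1]
    exact hE.x0 l
  · intro l n
    rw [hsumF l (la' n), ← hE.xl l n]
    refine Finset.sum_congr rfl fun v _ => ?_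
    change xx l v * la n (Quotient.out (v : V ⧸ W)) = _
    rw [hlam]
  · intro v
    obtain ⟨u, hu⟩ : ∃ u : V, u = Quotient.out v := ⟨_, rfl⟩
    have huv : (u : V ⧸ W) = v := by rw [hu, hout]
    have hla2 : ∀ l, la' l v = la l u := fun l => by rw [hu]
    have hlu := hfx (lf u) (hlf u)
    have hgu := hfx (G u) (hG u)
    refine ⟨πs (βs (lf u)), πs (βs (G u)), ?_, ?_, ?_⟩
    · rw [hqb _ hlu, hF.q0, hB.om, ← hQ.om, huv]
    · have h1 : (1 : As) ∈ FxR (cw F⟦X⟧ γ) ⊤ :=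
        fx_of_comm γ (fun g => by rw [mul_one, one_mul])
      have h2 : (PowerSeries.X : F⟦X⟧) • G u ∈ FxR (cw F⟦X⟧ γ) ⊤ := Submodule.smul_mem _ _ hgu
      have h3 : γ ⟨u ^ ℓ, hpw u⟩ ∈ FxR (cw F⟦X⟧ γ) ⊤ := fx_of_comm γ (fun g => hγγ g _)
      rw [← map_pow, ← (hβp _ hlu ℓ).2, hF.pl u (hpw u), hBs.mul _ h3 _ (Submodule.add_mem _ h1 h2),
        hBs.add _ h1 _ h2, hBs.one, hBs.smul _ _ hgu, hBs.om, map_mul, hγ1, one_mul, map_add,
        map_one, map_smul]
    · have h1 : D u - Xe α (pg la xx t u) ∈ FxR (cw F α) ⊤ :=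
        Submodule.sub_mem _ (hD.fx u) (hXβ (pg la xx t u)).1
      have h2 := hβm _ h1 (hD.bk u)
      have h3 : q1 (πs (βs (G u))) =
          ∑ y, (∑ l, t l * la l u * xx' l y) • αH y + π (β (D u - Xe α (pg la xx t u))) := by
        rw [hqb _ hgu, hF.qG, ← hπX u, ← map_add, ← hB.add _ (hmono (hXβ (pg la xx t u)).1) _ (hmono h1), add_sub_cancel]
      rw [h3]
      simp only [hla2]
      rw [add_sub_cancel_left]
      exact h2
  · intro u v
    obtain ⟨z, hz⟩ := hF.cc (Quotient.out u) (Quotient.out v)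
    set a := lf (Quotient.out u) with ha
    set b := lf (Quotient.out v) with hb
    have hca : ∀ g, γ g * a = a * γ g := hlf _
    have hcb : ∀ g, γ g * b = b * γ g := hlf _
    have hab : ∀ g, γ g * (a * b) = a * b * γ g := fun g => by
      rw [← mul_assoc, hca, mul_assoc, hcb, mul_assoc]
    have hba : ∀ g, γ g * (b * a) = b * a * γ g := fun g => by
      rw [← mul_assoc, hcb, mul_assoc, hca, mul_assoc]
    have hzz : ∀ g, γ g * z = z * γ g := by
      apply hXcomm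
      apply hXcomm
      intro g
      rw [smul_smul, ← sq, ← hz, mul_sub, sub_mul, hab, hba]
    have fa := hfx a hca
    have fb := hfx b hcb
    have fz := hfx z hzz
    have fba := hfx (b * a) hba
    have f2 : ((PowerSeries.X : F⟦X⟧) ^ 2) • z ∈ FxR (cw F⟦X⟧ γ) ⊤ := Submodule.smul_mem _ _ fz
    refine ⟨πs (βs a), πs (βs b), (PowerSeries.X : F⟦X⟧) • πs (βs z), ?_, ?_, ?_, ?_⟩
    · rw [hqb _ fa, hF.q0, hB.om, ← hQ.om, hout]
    · rw [hqb _ fb, hF.q0, hB.om, ← hQ.om, hout]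
    · have h1 : a * b = b * a + ((PowerSeries.X : F⟦X⟧) ^ 2) • z := by
        rw [← hz, add_sub_cancel]
      rw [← map_mul, ← map_mul, ← hBs.mul _ fa _ fb, ← hBs.mul _ fb _ fa, h1, hBs.add _ fba _ f2,
        hBs.smul _ _ fz, map_add, map_smul, add_sub_cancel_left, sq, mul_smul]
    · have h1 : q1 ((PowerSeries.X : F⟦X⟧) • πs (βs z)) = 0 := by
        rw [Algebra.smul_def, map_mul, hq1, PowerSeries.constantCoeff_X, map_zero, zero_mul]
      rw [h1]
      exact Submodule.zero_mem _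

theorem qrg : QrgStmt :=
  qrg_aux All30.fco All30.fbk All30.bbk All30.tfx

end Pool.Agent.PST.UC.H95
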