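import Pool.Agent.PST.StmtsK2

set_option autoImplicit false

open scoped BigOperators

noncomputable section

namespace Pool.Agent.PST.H95

open Pool.Agent.PSS
open Pool.Agent.PST

/-- the elements `a0 + σ a1 + b0 + σ b1` -/
@[ext]
structure S4 (A B : Type) where
  a0 : A
  a1 : A
  b0 : B
  b1 : B

/-- the data for `Y` -/
structure Dt {A B : Type} [Ring A] [Ring B] (i : A →+* B) (n : A → A → A) (μ c d : B → B → B) :
    Prop where
  inj : Function.Injective i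
  bμ : Bad μ
  bc : Bad c
  bd : Bad d
  nμ : Nrm μ
  nc : Nrm c
  nd : Nrm d
  hn : ∀ a a', i (n a a') = μ (i a) (i a')
  cμ : ∀ x y z, dl μ x y z = 0
  cc : ∀ a₁ a₂ a₃, In i (dl c (i a₁) (i a₂) (i a₃))
  cb : ∀ a₁ a₂ a₃, In i (brk μ c (i a₁) (i a₂) (i a₃) - dl d (i a₁) (i a₂) (i a₃))

section

variable {A B : Type} [Ring A] [Ring B] {i : A →+* B} {n : A → A → A} {μ c d : B → B → B}

theorem Bad.zl {c : B → B → B} (h : Bad c) (x : B) : c 0 x = 0 := by
  have := h.l 0 0 x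
  rw [add_zero] at this
  exact left_eq_add.1 this

theorem Bad.zr {c : B → B → B} (h : Bad c) (x : B) : c x 0 = 0 := by
  have := h.r x 0 0
  rw [add_zero] at this
  exact left_eq_add.1 this

theorem Bad.ngl {c : B → B → B} (h : Bad c) (x y : B) : c (-x) y = - c x y := by
  rw [eq_neg_iff_add_eq_zero, ← h.l, neg_add_cancel, Bad.zl h]

theorem Bad.ngr {c : B → B → B} (h : Bad c) (x y : B) : c x (-y) = - c x y := by
  rw [eq_neg_iff_add_eq_zero, ← h.r, neg_add_cancel, Bad.zr h]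

theorem Bad.sl {c : B → B → B} (h : Bad c) (x y z : B) : c (x - y) z = c x z - c y z := by
  rw [sub_eq_add_neg, h.l, Bad.ngl h, sub_eq_add_neg]

theorem Bad.sr {c : B → B → B} (h : Bad c) (x y z : B) : c x (y - z) = c x y - c x z := by
  rw [sub_eq_add_neg, h.r, Bad.ngr h, sub_eq_add_neg]

theorem Dt.nl (h : Dt i n μ c d) (x y z : A) : n (x + y) z = n x z + n y z := by
  apply h.inj
  rw [map_add, h.hn, h.hn, h.hn, map_add, h.bμ.l]

theorem Dt.nr (h : Dt i n μ c d) (x y z : A) : n x (y + z) = n x y + n x z := by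
  apply h.inj
  rw [map_add, h.hn, h.hn, h.hn, map_add, h.bμ.r]

theorem Dt.n1l (h : Dt i n μ c d) (x : A) : n 1 x = 0 := by
  apply h.inj
  rw [h.hn, map_one, map_zero]
  exact h.nμ.1 _

theorem Dt.n1r (h : Dt i n μ c d) (x : A) : n x 1 = 0 := by
  apply h.inj
  rw [h.hn, map_one, map_zero]
  exact h.nμ.2 _

theorem Dt.n0l (h : Dt i n μ c d) (x : A) : n 0 x = 0 := by
  apply h.inj
  rw [h.hn, map_zero]
  exact Bad.zl h.bμ _

theorem Dt.n0r (h : Dt i n μ c d) (x : A) : n x 0 = 0 := by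
  apply h.inj
  rw [h.hn, map_zero]
  exact Bad.zr h.bμ _

theorem Dt.nc' (h : Dt i n μ c d) (x y z : A) :
    n x y * z + n (x * y) z = x * n y z + n x (y * z) := by
  apply h.inj
  have h1 := h.cμ (i x) (i y) (i z)
  simp only [dl] at h1
  simp only [map_add, map_mul, h.hn]
  have h2 : i x * μ (i y) (i z) + μ (i x) (i y * i z) -
      (μ (i x) (i y) * i z + μ (i x * i y) (i z)) = 0 := by
    rw [← h1]
    abel
  exact (sub_eq_zero.1 h2).symm

instance s4addi : Add (S4 A B) := ⟨fun x y => ⟨x.a0 + y.a0, x.a1 + y.a1, x.b0 + y.b0, x.b1 + y.b1⟩⟩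

instance s4zero : Zero (S4 A B) := ⟨⟨0, 0, 0, 0⟩⟩

instance s4neg : Neg (S4 A B) := ⟨fun x => ⟨-x.a0, -x.a1, -x.b0, -x.b1⟩⟩

/-- the additive group -/
instance s4add : AddCommGroup (S4 A B) where
  add_assoc x y z := S4.ext (add_assoc _ _ _) (add_assoc _ _ _) (add_assoc _ _ _)
    (add_assoc _ _ _)
  zero_add x := S4.ext (zero_add _) (zero_add _) (zero_add _) (zero_add _)
  add_zero x := S4.ext (add_zero _) (add_zero _) (add_zero _) (add_zero _)
  add_comm x y := S4.ext (add_comm _ _) (add_comm _ _) (add_comm _ _) (add_comm _ _)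
  neg_add_cancel x := S4.ext (neg_add_cancel _) (neg_add_cancel _) (neg_add_cancel _)
    (neg_add_cancel _)
  nsmul := nsmulRec
  zsmul := zsmulRec

theorem add_a0 (x y : S4 A B) : (x + y).a0 = x.a0 + y.a0 := rfl
theorem add_a1 (x y : S4 A B) : (x + y).a1 = x.a1 + y.a1 := rfl
theorem add_b0 (x y : S4 A B) : (x + y).b0 = x.b0 + y.b0 := rfl
theorem add_b1 (x y : S4 A B) : (x + y).b1 = x.b1 + y.b1 := rfl
theorem zero_a0 : (0 : S4 A B).a0 = 0 := rfl
theorem zero_a1 : (0 : S4 A B).a1 = 0 := rfl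
theorem zero_b0 : (0 : S4 A B).b0 = 0 := rfl
theorem zero_b1 : (0 : S4 A B).b1 = 0 := rfl

/-- the multiplication -/
def mul4 (i : A →+* B) (n : A → A → A) (μ c d : B → B → B) (x y : S4 A B) : S4 A B :=
  ⟨x.a0 * y.a0, x.a0 * y.a1 + x.a1 * y.a0 + n x.a0 y.a0,
    i x.a0 * y.b0 + x.b0 * i y.a0 + c (i x.a0) (i y.a0),
    i x.a0 * y.b1 + i x.a1 * y.b0 + x.b0 * i y.a1 + x.b1 * i y.a0 + μ (i x.a0) y.b0 +
      μ x.b0 (i y.a0) + c (i x.a1) (i y.a0) + c (i x.a0) (i y.a1) + d (i x.a0) (i y.a0)⟩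

/-- the nonassociative ring -/
@[instance_reducible]
def nar (h : Dt i n μ c d) : NonAssocRing (S4 A B) :=
  { s4add with
    mul := mul4 i n μ c d
    left_distrib := by
      intro x y z
      apply S4.ext
      · exact mul_add _ _ _
      · change x.a0 * (y.a1 + z.a1) + x.a1 * (y.a0 + z.a0) + n x.a0 (y.a0 + z.a0) =
          x.a0 * y.a1 + x.a1 * y.a0 + n x.a0 y.a0 + (x.a0 * z.a1 + x.a1 * z.a0 + n x.a0 z.a0)
        rw [h.nr, mul_add, mul_add]
        abel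
      · change i x.a0 * (y.b0 + z.b0) + x.b0 * i (y.a0 + z.a0) + c (i x.a0) (i (y.a0 + z.a0)) =
          i x.a0 * y.b0 + x.b0 * i y.a0 + c (i x.a0) (i y.a0) +
          (i x.a0 * z.b0 + x.b0 * i z.a0 + c (i x.a0) (i z.a0))
        rw [map_add, h.bc.r, mul_add, mul_add]
        abel
      · change i x.a0 * (y.b1 + z.b1) + i x.a1 * (y.b0 + z.b0) + x.b0 * i (y.a1 + z.a1) +
          x.b1 * i (y.a0 + z.a0) + μ (i x.a0) (y.b0 + z.b0) + μ x.b0 (i (y.a0 + z.a0)) +
          c (i x.a1) (i (y.a0 + z.a0)) + c (i x.a0) (i (y.a1 + z.a1)) +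
          d (i x.a0) (i (y.a0 + z.a0)) =
          i x.a0 * y.b1 + i x.a1 * y.b0 + x.b0 * i y.a1 + x.b1 * i y.a0 + μ (i x.a0) y.b0 +
          μ x.b0 (i y.a0) + c (i x.a1) (i y.a0) + c (i x.a0) (i y.a1) + d (i x.a0) (i y.a0) +
          (i x.a0 * z.b1 + i x.a1 * z.b0 + x.b0 * i z.a1 + x.b1 * i z.a0 + μ (i x.a0) z.b0 +
          μ x.b0 (i z.a0) + c (i x.a1) (i z.a0) + c (i x.a0) (i z.a1) + d (i x.a0) (i z.a0))
        simp only [map_add, h.bc.r, h.bμ.r, h.bd.r, mul_add]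
        abel
    right_distrib := by
      intro x y z
      apply S4.ext
      · exact add_mul _ _ _
      · change (x.a0 + y.a0) * z.a1 + (x.a1 + y.a1) * z.a0 + n (x.a0 + y.a0) z.a0 =
          x.a0 * z.a1 + x.a1 * z.a0 + n x.a0 z.a0 + (y.a0 * z.a1 + y.a1 * z.a0 + n y.a0 z.a0)
        rw [h.nl, add_mul, add_mul]
        abel
      · change i (x.a0 + y.a0) * z.b0 + (x.b0 + y.b0) * i z.a0 + c (i (x.a0 + y.a0)) (i z.a0) =
          i x.a0 * z.b0 + x.b0 * i z.a0 + c (i x.a0) (i z.a0) +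
          (i y.a0 * z.b0 + y.b0 * i z.a0 + c (i y.a0) (i z.a0))
        rw [map_add, h.bc.l, add_mul, add_mul]
        abel
      · change i (x.a0 + y.a0) * z.b1 + i (x.a1 + y.a1) * z.b0 + (x.b0 + y.b0) * i z.a1 +
          (x.b1 + y.b1) * i z.a0 + μ (i (x.a0 + y.a0)) z.b0 + μ (x.b0 + y.b0) (i z.a0) +
          c (i (x.a1 + y.a1)) (i z.a0) + c (i (x.a0 + y.a0)) (i z.a1) +
          d (i (x.a0 + y.a0)) (i z.a0) =
          i x.a0 * z.b1 + i x.a1 * z.b0 + x.b0 * i z.a1 + x.b1 * i z.a0 + μ (i x.a0) z.b0 +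
          μ x.b0 (i z.a0) + c (i x.a1) (i z.a0) + c (i x.a0) (i z.a1) + d (i x.a0) (i z.a0) +
          (i y.a0 * z.b1 + i y.a1 * z.b0 + y.b0 * i z.a1 + y.b1 * i z.a0 + μ (i y.a0) z.b0 +
          μ y.b0 (i z.a0) + c (i y.a1) (i z.a0) + c (i y.a0) (i z.a1) + d (i y.a0) (i z.a0))
        simp only [map_add, h.bc.l, h.bμ.l, h.bd.l, add_mul]
        abel
    zero_mul := by
      intro x
      apply S4.ext
      · exact zero_mul _
      · change 0 * x.a1 + 0 * x.a0 + n 0 x.a0 = 0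
        rw [h.n0l, zero_mul, zero_mul, add_zero, add_zero]
      · change i 0 * x.b0 + 0 * i x.a0 + c (i 0) (i x.a0) = 0
        rw [map_zero, Bad.zl h.bc, zero_mul, zero_mul, add_zero, add_zero]
      · change i 0 * x.b1 + i 0 * x.b0 + 0 * i x.a1 + 0 * i x.a0 + μ (i 0) x.b0 +
          μ 0 (i x.a0) + c (i 0) (i x.a0) + c (i 0) (i x.a1) + d (i 0) (i x.a0) = 0
        simp only [map_zero, Bad.zl h.bc, Bad.zl h.bμ, Bad.zl h.bd, zero_mul, add_zero]
    mul_zero := by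
      intro x
      apply S4.ext
      · exact mul_zero _
      · change x.a0 * 0 + x.a1 * 0 + n x.a0 0 = 0
        rw [h.n0r, mul_zero, mul_zero, add_zero, add_zero]
      · change i x.a0 * 0 + x.b0 * i 0 + c (i x.a0) (i 0) = 0
        rw [map_zero, Bad.zr h.bc, mul_zero, mul_zero, add_zero, add_zero]
      · change i x.a0 * 0 + i x.a1 * 0 + x.b0 * i 0 + x.b1 * i 0 + μ (i x.a0) 0 +
          μ x.b0 (i 0) + c (i x.a1) (i 0) + c (i x.a0) (i 0) + d (i x.a0) (i 0) = 0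
        simp only [map_zero, Bad.zr h.bc, Bad.zr h.bμ, Bad.zr h.bd, mul_zero, add_zero]
    one := ⟨1, 0, 0, 0⟩
    one_mul := by
      intro x
      apply S4.ext
      · exact one_mul _
      · change 1 * x.a1 + 0 * x.a0 + n 1 x.a0 = x.a1
        rw [h.n1l, zero_mul, one_mul, add_zero, add_zero]
      · change i 1 * x.b0 + 0 * i x.a0 + c (i 1) (i x.a0) = x.b0
        rw [map_one, h.nc.1, zero_mul, one_mul, add_zero, add_zero]
      · change i 1 * x.b1 + i 0 * x.b0 + 0 * i x.a1 + 0 * i x.a0 + μ (i 1) x.b0 +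
          μ 0 (i x.a0) + c (i 0) (i x.a0) + c (i 1) (i x.a1) + d (i 1) (i x.a0) = x.b1
        simp only [map_zero, map_one, Bad.zl h.bc, Bad.zl h.bμ, h.nμ.1, h.nc.1, h.nd.1,
          zero_mul, one_mul, add_zero]
    mul_one := by
      intro x
      apply S4.ext
      · exact mul_one _
      · change x.a0 * 0 + x.a1 * 1 + n x.a0 1 = x.a1
        rw [h.n1r, mul_zero, mul_one, zero_add, add_zero]
      · change i x.a0 * 0 + x.b0 * i 1 + c (i x.a0) (i 1) = x.b0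
        rw [map_one, h.nc.2, mul_zero, mul_one, zero_add, add_zero]
      · change i x.a0 * 0 + i x.a1 * 0 + x.b0 * i 0 + x.b1 * i 1 + μ (i x.a0) 0 +
          μ x.b0 (i 1) + c (i x.a1) (i 1) + c (i x.a0) (i 0) + d (i x.a0) (i 1) = x.b1
        simp only [map_zero, map_one, Bad.zr h.bc, Bad.zr h.bμ, h.nμ.2, h.nc.2, h.nd.2,
          mul_zero, mul_one, add_zero, zero_add] }

/-- equal modulo `i A` in the last two components -/
def rl (i : A →+* B) (x y : S4 A B) : Prop :=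
  x.a0 = y.a0 ∧ x.a1 = y.a1 ∧ In i (x.b0 - y.b0) ∧ In i (x.b1 - y.b1)

theorem rl_iseqv (i : A →+* B) : Equivalence (rl i) where
  refl x := ⟨rfl, rfl, ⟨0, by rw [map_zero, sub_self]⟩, ⟨0, by rw [map_zero, sub_self]⟩⟩
  symm := by
    rintro x y ⟨h1, h2, ⟨a, ha⟩, ⟨b, hb⟩⟩
    exact ⟨h1.symm, h2.symm, ⟨-a, by rw [map_neg, ha, neg_sub]⟩, ⟨-b, by rw [map_neg, hb, neg_sub]⟩⟩
  trans := by
    rintro x y z ⟨h1, h2, ⟨a, ha⟩, ⟨b, hb⟩⟩ ⟨h3, h4, ⟨a', ha'⟩, ⟨b', hb'⟩⟩
    exact ⟨h1.trans h3, h2.trans h4, ⟨a + a', by rw [map_add, ha, ha']; abel⟩,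
      ⟨b + b', by rw [map_add, hb, hb']; abel⟩⟩

/-- the congruence relation -/
def rc (h : Dt i n μ c d) : letI := nar h; RingCon (S4 A B) :=
  letI := nar h
  { r := rl i
    iseqv := rl_iseqv i
    add' := by
      rintro w x y z ⟨h1, h2, ⟨a, ha⟩, ⟨b, hb⟩⟩ ⟨h3, h4, ⟨a', ha'⟩, ⟨b', hb'⟩⟩
      refine ⟨?_, ?_, ⟨a + a', ?_⟩, ⟨b + b', ?_⟩⟩
      · change w.a0 + y.a0 = x.a0 + z.a0
        rw [h1, h3]
      · change w.a1 + y.a1 = x.a1 + z.a1
        rw [h2, h4]
      · change i (a + a') = w.b0 + y.b0 - (x.b0 + z.b0)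
        rw [map_add, ha, ha']
        abel
      · change i (b + b') = w.b1 + y.b1 - (x.b1 + z.b1)
        rw [map_add, hb, hb']
        abel
    mul' := by
      rintro w x y z ⟨h1, h2, ⟨a, ha⟩, ⟨b, hb⟩⟩ ⟨h3, h4, ⟨a', ha'⟩, ⟨b', hb'⟩⟩
      refine ⟨?_, ?_, ⟨x.a0 * a' + a * z.a0, ?_⟩,
        ⟨x.a0 * b' + x.a1 * a' + a * z.a1 + b * z.a0 + n x.a0 a' + n a z.a0, ?_⟩⟩
      · change w.a0 * y.a0 = x.a0 * z.a0
        rw [h1, h3]
      · change w.a0 * y.a1 + w.a1 * y.a0 + n w.a0 y.a0 = x.a0 * z.a1 + x.a1 * z.a0 + n x.a0 z.a0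
        rw [h1, h2, h3, h4]
      · change i (x.a0 * a' + a * z.a0) = i w.a0 * y.b0 + w.b0 * i y.a0 + c (i w.a0) (i y.a0) -
          (i x.a0 * z.b0 + x.b0 * i z.a0 + c (i x.a0) (i z.a0))
        rw [map_add, map_mul, map_mul, ha, ha', h1, h3, mul_sub, sub_mul]
        abel
      · change i (x.a0 * b' + x.a1 * a' + a * z.a1 + b * z.a0 + n x.a0 a' + n a z.a0) =
          i w.a0 * y.b1 + i w.a1 * y.b0 + w.b0 * i y.a1 + w.b1 * i y.a0 + μ (i w.a0) y.b0 +
          μ w.b0 (i y.a0) + c (i w.a1) (i y.a0) + c (i w.a0) (i y.a1) + d (i w.a0) (i y.a0) -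
          (i x.a0 * z.b1 + i x.a1 * z.b0 + x.b0 * i z.a1 + x.b1 * i z.a0 + μ (i x.a0) z.b0 +
          μ x.b0 (i z.a0) + c (i x.a1) (i z.a0) + c (i x.a0) (i z.a1) + d (i x.a0) (i z.a0))
        simp only [map_add, map_mul, h.hn]
        rw [ha, ha', hb, hb', h1, h2, h3, h4, Bad.sr h.bμ, Bad.sl h.bμ]
        simp only [mul_sub, sub_mul]
        abel }

theorem rl_assoc (h : Dt i n μ c d) (x y z : S4 A B) :
    rl i (mul4 i n μ c d (mul4 i n μ c d x y) z) (mul4 i n μ c d x (mul4 i n μ c d y z)) := by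
  refine ⟨mul_assoc _ _ _, ?_, ?_, ?_⟩
  · change x.a0 * y.a0 * z.a1 + (x.a0 * y.a1 + x.a1 * y.a0 + n x.a0 y.a0) * z.a0 +
      n (x.a0 * y.a0) z.a0 = x.a0 * (y.a0 * z.a1 + y.a1 * z.a0 + n y.a0 z.a0) +
      x.a1 * (y.a0 * z.a0) + n x.a0 (y.a0 * z.a0)
    have h1 := h.nc' x.a0 y.a0 z.a0
    simp only [add_mul, mul_add, mul_assoc] at h1 ⊢
    have h2 : x.a0 * (y.a0 * z.a1) + (x.a0 * (y.a1 * z.a0) + x.a1 * (y.a0 * z.a0) +
        n x.a0 y.a0 * z.a0) + n (x.a0 * y.a0) z.a0 = x.a0 * (y.a0 * z.a1) +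
        x.a0 * (y.a1 * z.a0) + x.a1 * (y.a0 * z.a0) +
        (n x.a0 y.a0 * z.a0 + n (x.a0 * y.a0) z.a0) := by abel
    rw [h2, h1]
    abel
  · obtain ⟨a, ha⟩ := h.cc x.a0 y.a0 z.a0
    refine ⟨-a, ?_⟩
    change i (-a) = i (x.a0 * y.a0) * z.b0 + (i x.a0 * y.b0 + x.b0 * i y.a0 +
      c (i x.a0) (i y.a0)) * i z.a0 + c (i (x.a0 * y.a0)) (i z.a0) -
      (i x.a0 * (i y.a0 * z.b0 + y.b0 * i z.a0 + c (i y.a0) (i z.a0)) + x.b0 * i (y.a0 * z.a0) +
      c (i x.a0) (i (y.a0 * z.a0)))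
    rw [map_neg, ha, map_mul, map_mul]
    simp only [dl, add_mul, mul_add, mul_assoc]
    abel
  · obtain ⟨e1, he1⟩ := h.cb x.a0 y.a0 z.a0
    obtain ⟨e2, he2⟩ := h.cc x.a1 y.a0 z.a0
    obtain ⟨e3, he3⟩ := h.cc x.a0 y.a1 z.a0
    obtain ⟨e4, he4⟩ := h.cc x.a0 y.a0 z.a1
    have m1 := h.cμ x.b0 (i y.a0) (i z.a0)
    have m2 := h.cμ (i x.a0) y.b0 (i z.a0)
    have m3 := h.cμ (i x.a0) (i y.a0) z.b0
    refine ⟨e1 - e2 - e3 - e4, ?_⟩
    change i (e1 - e2 - e3 - e4) = i (x.a0 * y.a0) * z.b1 +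
      i (x.a0 * y.a1 + x.a1 * y.a0 + n x.a0 y.a0) * z.b0 +
      (i x.a0 * y.b0 + x.b0 * i y.a0 + c (i x.a0) (i y.a0)) * i z.a1 +
      (i x.a0 * y.b1 + i x.a1 * y.b0 + x.b0 * i y.a1 + x.b1 * i y.a0 + μ (i x.a0) y.b0 +
      μ x.b0 (i y.a0) + c (i x.a1) (i y.a0) + c (i x.a0) (i y.a1) + d (i x.a0) (i y.a0)) * i z.a0 +
      μ (i (x.a0 * y.a0)) z.b0 + μ (i x.a0 * y.b0 + x.b0 * i y.a0 + c (i x.a0) (i y.a0)) (i z.a0) +
      c (i (x.a0 * y.a1 + x.a1 * y.a0 + n x.a0 y.a0)) (i z.a0) +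
      c (i (x.a0 * y.a0)) (i z.a1) + d (i (x.a0 * y.a0)) (i z.a0) -
      (i x.a0 * (i y.a0 * z.b1 + i y.a1 * z.b0 + y.b0 * i z.a1 + y.b1 * i z.a0 +
      μ (i y.a0) z.b0 + μ y.b0 (i z.a0) + c (i y.a1) (i z.a0) + c (i y.a0) (i z.a1) +
      d (i y.a0) (i z.a0)) +
      i x.a1 * (i y.a0 * z.b0 + y.b0 * i z.a0 + c (i y.a0) (i z.a0)) +
      x.b0 * i (y.a0 * z.a1 + y.a1 * z.a0 + n y.a0 z.a0) + x.b1 * i (y.a0 * z.a0) +
      μ (i x.a0) (i y.a0 * z.b0 + y.b0 * i z.a0 + c (i y.a0) (i z.a0)) +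
      μ x.b0 (i (y.a0 * z.a0)) + c (i x.a1) (i (y.a0 * z.a0)) +
      c (i x.a0) (i (y.a0 * z.a1 + y.a1 * z.a0 + n y.a0 z.a0)) + d (i x.a0) (i (y.a0 * z.a0)))
    have key : i (e1 - e2 - e3 - e4) = (brk μ c (i x.a0) (i y.a0) (i z.a0) -
        dl d (i x.a0) (i y.a0) (i z.a0)) - dl c (i x.a1) (i y.a0) (i z.a0) -
        dl c (i x.a0) (i y.a1) (i z.a0) - dl c (i x.a0) (i y.a0) (i z.a1) -
        dl μ x.b0 (i y.a0) (i z.a0) - dl μ (i x.a0) y.b0 (i z.a0) -
        dl μ (i x.a0) (i y.a0) z.b0 := by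
      rw [m1, m2, m3, map_sub, map_sub, map_sub, he1, he2, he3, he4]
      abel
    rw [key]
    simp only [dl, brk, map_add, map_mul, h.hn, h.bc.l, h.bc.r, h.bμ.l, h.bμ.r, add_mul, mul_add,
      mul_assoc]
    abel

theorem sig_mul (h : Dt i n μ c d) (x : S4 A B) :
    mul4 i n μ c d ⟨0, 1, 0, 0⟩ x = ⟨0, x.a0, 0, x.b0⟩ := by
  apply S4.ext
  · exact zero_mul _
  · change 0 * x.a1 + 1 * x.a0 + n 0 x.a0 = x.a0
    rw [h.n0l, zero_mul, one_mul, zero_add, add_zero]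
  · change i 0 * x.b0 + 0 * i x.a0 + c (i 0) (i x.a0) = 0
    rw [map_zero, Bad.zl h.bc, zero_mul, zero_mul, add_zero, add_zero]
  · change i 0 * x.b1 + i 1 * x.b0 + 0 * i x.a1 + 0 * i x.a0 + μ (i 0) x.b0 +
      μ 0 (i x.a0) + c (i 1) (i x.a0) + c (i 0) (i x.a1) + d (i 0) (i x.a0) = x.b0
    simp only [map_zero, map_one, Bad.zl h.bc, Bad.zl h.bμ, Bad.zl h.bd, h.nc.1, zero_mul, one_mul,
      add_zero, zero_add]

theorem mul_sig (h : Dt i n μ c d) (x : S4 A B) :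
    mul4 i n μ c d x ⟨0, 1, 0, 0⟩ = ⟨0, x.a0, 0, x.b0⟩ := by
  apply S4.ext
  · exact mul_zero _
  · change x.a0 * 1 + x.a1 * 0 + n x.a0 0 = x.a0
    rw [h.n0r, mul_zero, mul_one, add_zero, add_zero]
  · change i x.a0 * 0 + x.b0 * i 0 + c (i x.a0) (i 0) = 0
    rw [map_zero, Bad.zr h.bc, mul_zero, mul_zero, add_zero, add_zero]
  · change i x.a0 * 0 + i x.a1 * 0 + x.b0 * i 1 + x.b1 * i 0 + μ (i x.a0) 0 +
      μ x.b0 (i 0) + c (i x.a1) (i 0) + c (i x.a0) (i 1) + d (i x.a0) (i 0) = x.b0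
    simp only [map_zero, map_one, Bad.zr h.bc, Bad.zr h.bμ, Bad.zr h.bd, h.nc.2, mul_zero, mul_one,
      add_zero, zero_add]

end

theorem eyr : EyrStmt := by
  intro A B X _ _ _ i μ c d p j s hi bμ bc bd nμ nc nd hμ cμ cc cb hX
  choose n hn using hμ
  have h : Dt i n μ c d := ⟨hi, bμ, bc, bd, nμ, nc, nd, hn, cμ, cc, cb⟩
  let iS := nar h
  have hq : ∀ x y : S4 A B, ((x : (rc h).Quotient) = y) ↔ rl i x y := fun x y => RingCon.eq (rc h)
  have hm : ∀ x y : S4 A B, ((x : (rc h).Quotient) * (y : (rc h).Quotient)) =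
      ((mul4 i n μ c d x y : S4 A B) : (rc h).Quotient) := fun x y => rfl
  let rY : Ring (rc h).Quotient :=
    { (inferInstance : NonAssocRing (rc h).Quotient) with
      mul_assoc := by
        intro x y z
        induction x using Quotient.inductionOn with
        | h x =>
          induction y using Quotient.inductionOn with
          | h y =>
            induction z using Quotient.inductionOn with
            | h z => exact (hq _ _).2 (rl_assoc h x y z) }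
  let f : S4 A B → X := fun x => s x.a0 + j x.b0
  have hf : ∀ x y : S4 A B, rl i x y → f x = f y := by
    rintro x y ⟨h1, _, h3, _⟩
    change s x.a0 + j x.b0 = s y.a0 + j y.b0
    have h4 := (hX.j0 _).2 h3
    rw [map_sub, sub_eq_zero] at h4
    rw [h1, h4]
  let π : (rc h).Quotient →+* X :=
    { toFun := fun y => Quotient.lift (s := (rc h).toSetoid) f hf y
      map_one' := by
        change s 1 + j 0 = 1
        rw [hX.s1, map_zero, add_zero]
      map_zero' := by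
        change s 0 + j 0 = 0
        rw [map_zero, map_zero, add_zero]
      map_add' := by
        intro x y
        induction x using Quotient.inductionOn with
        | h x =>
          induction y using Quotient.inductionOn with
          | h y =>
            change s (x.a0 + y.a0) + j (x.b0 + y.b0) = (s x.a0 + j x.b0) + (s y.a0 + j y.b0)
            rw [map_add, map_add]
            abel
      map_mul' := by
        intro x y
        induction x using Quotient.inductionOn with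
        | h x =>
          induction y using Quotient.inductionOn with
          | h y =>
            change s (x.a0 * y.a0) + j (i x.a0 * y.b0 + x.b0 * i y.a0 + c (i x.a0) (i y.a0)) =
              (s x.a0 + j x.b0) * (s y.a0 + j y.b0)
            rw [add_mul, mul_add, mul_add, hX.ss, hX.sj, hX.js, hX.jj, map_add, map_add]
            abel }
  have hπ : ∀ x : S4 A B, π (x : (rc h).Quotient) = s x.a0 + j x.b0 := fun x => rfl
  have hadd : ∀ x y : S4 A B, ((x : (rc h).Quotient) + (y : (rc h).Quotient)) =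
      ((x + y : S4 A B) : (rc h).Quotient) := fun x y => rfl
  have h0 : (0 : (rc h).Quotient) = ((0 : S4 A B) : (rc h).Quotient) := rfl
  let jY : B →+ (rc h).Quotient :=
    { toFun := fun m => ((⟨0, 0, m, 0⟩ : S4 A B) : (rc h).Quotient)
      map_zero' := rfl
      map_add' := by
        intro x y
        rw [hadd]
        congr 1
        exact S4.ext (add_zero _).symm (add_zero _).symm rfl (add_zero _).symm }
  let sY : A →+ (rc h).Quotient :=
    { toFun := fun a => ((⟨a, 0, 0, 0⟩ : S4 A B) : (rc h).Quotient)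
      map_zero' := rfl
      map_add' := by
        intro x y
        rw [hadd]
        congr 1
        exact S4.ext rfl (add_zero _).symm (add_zero _).symm (add_zero _).symm }
  let σ : (rc h).Quotient := ((⟨0, 1, 0, 0⟩ : S4 A B) : (rc h).Quotient)
  have hjY : ∀ m, jY m = ((⟨0, 0, m, 0⟩ : S4 A B) : (rc h).Quotient) := fun m => rfl
  have hsY : ∀ a, sY a = ((⟨a, 0, 0, 0⟩ : S4 A B) : (rc h).Quotient) := fun m => rfl
  have hσ : ∀ x : S4 A B, σ * (x : (rc h).Quotient) =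
      ((⟨0, x.a0, 0, x.b0⟩ : S4 A B) : (rc h).Quotient) := by
    intro x
    change ((⟨0, 1, 0, 0⟩ : S4 A B) : (rc h).Quotient) * (x : (rc h).Quotient) = _
    rw [hm, sig_mul h]
  have hσ' : ∀ x : S4 A B, (x : (rc h).Quotient) * σ =
      ((⟨0, x.a0, 0, x.b0⟩ : S4 A B) : (rc h).Quotient) := by
    intro x
    change (x : (rc h).Quotient) * ((⟨0, 1, 0, 0⟩ : S4 A B) : (rc h).Quotient) = _
    rw [hm, mul_sig h]
  refine ⟨n, (rc h).Quotient, rY, π, jY, sY, σ, hn, ?_⟩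
  constructor
  · intro a
    change s a + j 0 = s a
    rw [map_zero, add_zero]
  · intro m
    change s 0 + j m = j m
    rw [map_zero, zero_add]
  · change s 0 + j 0 = 0
    rw [map_zero, map_zero, add_zero]
  · intro y hy
    induction y using Quotient.inductionOn with
    | h y =>
      change s y.a0 + j y.b0 = 0 at hy
      have h1 := congrArg p hy
      rw [map_add, hX.ps, hX.pj, add_zero, map_zero] at h1
      rw [h1, map_zero, zero_add, hX.j0] at hy
      refine ⟨((⟨y.a1, 0, y.b1, 0⟩ : S4 A B) : (rc h).Quotient), ?_⟩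
      rw [hσ]
      refine (hq _ _).2 ⟨h1, rfl, ?_, ⟨0, ?_⟩⟩
      · change In i (y.b0 - 0)
        rw [sub_zero]
        exact hy
      · change i 0 = y.b1 - y.b1
        rw [map_zero, sub_self]
  · intro y hy
    induction y using Quotient.inductionOn with
    | h y =>
      have h1 := (hσ y).symm.trans hy
      obtain ⟨_, h2, _, h3⟩ := (hq _ _).1 h1
      change y.a0 = 0 at h2
      change In i (y.b0 - 0) at h3
      rw [sub_zero] at h3
      change s y.a0 + j y.b0 = 0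
      rw [h2, map_zero, zero_add]
      exact (hX.j0 _).2 h3
  · intro y
    induction y using Quotient.inductionOn with
    | h y => exact (hσ y).trans (hσ' y).symm
  · exact hσ _
  · intro m hm'
    refine (hq _ _).2 ⟨rfl, rfl, ?_, ⟨0, ?_⟩⟩
    · change In i (m - 0)
      rw [sub_zero]
      exact hm'
    · change i 0 = (0 : B) - 0
      rw [map_zero, sub_self]
  · intro m m'
    rw [hjY, hjY, hm, h0]
    congr 1
    apply S4.ext
    · exact zero_mul _
    · change (0 : A) * 0 + 0 * 0 + n 0 0 = 0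
      rw [h.n0l, zero_mul, add_zero, add_zero]
    · change i 0 * m' + m * i 0 + c (i 0) (i 0) = 0
      rw [map_zero, Bad.zl h.bc, zero_mul, mul_zero, add_zero, add_zero]
    · change i 0 * 0 + i 0 * m' + m * i 0 + 0 * i 0 + μ (i 0) m' + μ m (i 0) + c (i 0) (i 0) +
        c (i 0) (i 0) + d (i 0) (i 0) = 0
      simp only [map_zero, Bad.zl h.bc, Bad.zl h.bμ, Bad.zr h.bμ, Bad.zl h.bd, zero_mul, mul_zero,
        add_zero]
  · intro a m
    rw [hjY, hjY, hjY, hsY, hm, hσ, hadd]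
    congr 1
    apply S4.ext
    · change a * 0 = 0 + 0
      rw [mul_zero, add_zero]
    · change a * 0 + 0 * 0 + n a 0 = 0 + 0
      rw [h.n0r, mul_zero, mul_zero, add_zero]
    · change i a * m + 0 * i 0 + c (i a) (i 0) = i a * m + 0
      rw [map_zero, Bad.zr h.bc, mul_zero, add_zero]
    · change i a * 0 + i 0 * m + 0 * i 0 + 0 * i 0 + μ (i a) m + μ 0 (i 0) + c (i 0) (i 0) +
        c (i a) (i 0) + d (i a) (i 0) = 0 + μ (i a) m
      simp only [map_zero, Bad.zl h.bc, Bad.zr h.bc, Bad.zl h.bμ, Bad.zr h.bd, zero_mul, mul_zero,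
        add_zero]
  · intro a m
    rw [hjY, hjY, hjY, hsY, hm, hσ, hadd]
    congr 1
    apply S4.ext
    · change 0 * a = 0 + 0
      rw [zero_mul, add_zero]
    · change 0 * 0 + 0 * a + n 0 a = 0 + 0
      rw [h.n0l, zero_mul, zero_mul, add_zero]
    · change i 0 * 0 + m * i a + c (i 0) (i a) = m * i a + 0
      rw [map_zero, Bad.zl h.bc, mul_zero, zero_add]
    · change i 0 * 0 + i 0 * 0 + m * i 0 + 0 * i a + μ (i 0) 0 + μ m (i a) + c (i 0) (i a) +
        c (i 0) (i 0) + d (i 0) (i a) = 0 + μ m (i a)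
      simp only [map_zero, Bad.zl h.bc, Bad.zl h.bμ, Bad.zl h.bd, zero_mul, mul_zero,
        add_zero]
  · intro a a'
    rw [hjY, hjY, hsY, hsY, hsY, hsY, hm, hσ, hσ, hadd, hadd, hadd]
    congr 1
    apply S4.ext
    · change a * a' = a * a' + 0 + 0 + 0
      rw [add_zero, add_zero, add_zero]
    · change a * 0 + 0 * a' + n a a' = 0 + n a a' + 0 + 0
      rw [mul_zero, zero_mul, add_zero, add_zero, add_zero]
    · change i a * 0 + 0 * i a' + c (i a) (i a') = 0 + 0 + c (i a) (i a') + 0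
      rw [mul_zero, zero_mul, add_zero, add_zero]
    · change i a * 0 + i 0 * 0 + 0 * i 0 + 0 * i a' + μ (i a) 0 + μ 0 (i a') + c (i 0) (i a') +
        c (i a) (i 0) + d (i a) (i a') = 0 + 0 + 0 + d (i a) (i a')
      simp only [map_zero, Bad.zl h.bc, Bad.zr h.bc, Bad.zl h.bμ, Bad.zr h.bμ, zero_mul, mul_zero,
        add_zero, zero_add]
  · rfl

end Pool.Agent.PST.H95
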