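import Pool.Agent.PST.StmtsK3

set_option autoImplicit false

open scoped BigOperators

noncomputable section

namespace Pool.Agent.PST.H95

open Pool.Agent.PFC (tw IsTv)
open Pool.Agent.PFD.D2 (Cdv FibG)
open Pool.Agent.PFD.D2b (FrR)
open Pool.Agent.PSS
open Pool.Agent.PSS.S0 (IsBQ)
open Pool.Agent.PST

theorem obw (oba : ObaStmt) (obb : ObbStmt) (obc : ObcStmt) (lfx : LfxStmt) : ObwStmt := by
  intro ℓ _ R K F V E A A₀ B κ Ω BT KT _ _ _ _ _ _ _ _ _ _ _ _ _ _ _ _ _ _ _ _ _ _ φ W α lam x y b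
    c C cv f α₀ lam₀ x₀ y₀ b₀ c₀ cc T αT β lamT xT yT hK hZ hBQ hRF _ u hu v hv
  obtain ⟨_, _, _, oba4⟩ := oba R K V A B κ Ω W α lam x y b c C cc hZ
  obtain ⟨obb1, _⟩ := obb R K V A B κ Ω W α lam x y b c C cc hZ
  have obc1 := obc R K V A B κ Ω W α lam x y b c C cc ℓ hK.pg hK.ch.pw hZ T
  obtain ⟨lfx1, _, lfx3⟩ := lfx R F V A A₀ κ Ω cv f α₀ lam₀ x₀ y₀ b₀ c₀ α lam x y b c hK.fr0 hK.lv T
  -- commuting
  have hcom : ∀ z ∈ FxR (cw R α) T, ∀ g ∈ T, z * α g = α g * z := by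
    intro z hz g hg
    have h1 : α g * (z * α g⁻¹) = z := hz g hg
    calc z * α g = α g * (z * α g⁻¹) * α g := by rw [h1]
      _ = α g * z * (α g⁻¹ * α g) := by simp only [mul_assoc]
      _ = α g * z := by rw [← map_mul, inv_mul_cancel, map_one, mul_one]
  set kq : B := kp C.i α cc u v with hkq
  -- the value
  have hval : ∀ z ∈ FxR (cw R α) T, ∃ ρ : R, algebraMap R K ρ = (ℓ : K) * C.lamK (C.i z * kq) := by
    intro z hz
    exact oba4 z ℓ u v (hcom z hz u hu) (hcom z hz v hv) (hK.ch.pw u)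
  have hκ0 : ∀ r : R, cv.κ (cv.π * r) = 0 := fun r => (cv.ker _).2 ⟨r, rfl⟩
  have hℓ0 : ∀ r : R, cv.κ ((ℓ : R) * r) = 0 := by
    intro r
    rw [← hK.pi]
    exact hκ0 r
  have hlπ : ∀ (r : R) (s : B), C.lamK (r • s) = algebraMap R K r * C.lamK s := by
    intro r s
    rw [← C.tow, map_smul, smul_eq_mul]
  have hker : ∀ z ∈ FxR (cw R α) T, β (f.q z) = 0 → ∀ ρ : R,
      algebraMap R K ρ = (ℓ : K) * C.lamK (C.i z * kq) → cv.κ ρ = 0 := by
    intro z hz h0 ρ hρ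
    obtain ⟨h1, h2⟩ := lfx3 z hz
    obtain ⟨a', ha', d, hd, hz'⟩ := h2 ((hBQ.ker _ h1).1 h0)
    obtain ⟨r1, hr1⟩ := obc1 a' ha' u hu v hv
    obtain ⟨r2, hr2⟩ := hval d hd
    have h3 : ρ = (ℓ : R) * r1 + cv.π * r2 := by
      apply C.rinj
      rw [hρ, hz', map_add, map_smul, add_mul, smul_mul_assoc, map_add, hlπ, mul_add, map_add,
        map_mul (algebraMap R K), map_mul (algebraMap R K), map_natCast, hr1, hr2]
      ring
    rw [h3, map_add, hℓ0, hκ0, add_zero]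
  -- lifts of the elements of the Brauer quotient
  have hlift : ∀ t : BT, ∃ z ∈ FxR (cw R α) T, β (f.q z) = t := by
    intro t
    obtain ⟨a, ha, hat⟩ := hBQ.surj t
    obtain ⟨z, hz, hza⟩ := lfx1 a ha
    exact ⟨z, hz, by rw [hza, hat]⟩
  choose zt hzt hbt using hlift
  choose rt' hrt using hval
  have hβadd : ∀ z ∈ FxR (cw R α) T, ∀ z' ∈ FxR (cw R α) T,
      β (f.q (z + z')) = β (f.q z) + β (f.q z') := by
    intro z hz z' hz'
    rw [map_add]
    exact hBQ.add _ (lfx3 z hz).1 _ (lfx3 z' hz').1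
  have hqs : ∀ (r : R) (z : A), f.q (r • z) = cv.κ r • f.q z := by
    intro r z
    rw [Algebra.smul_def, map_mul, f.sc, Algebra.smul_def]
  have hβsmul : ∀ (r : R), ∀ z ∈ FxR (cw R α) T, β (f.q (r • z)) = cv.κ r • β (f.q z) := by
    intro r z hz
    rw [hqs]
    exact hBQ.smul _ _ (lfx3 z hz).1
  -- the value depends only on the class
  have hwd : ∀ z ∈ FxR (cw R α) T, ∀ z' ∈ FxR (cw R α) T, β (f.q z) = β (f.q z') → ∀ ρ ρ' : R,
      algebraMap R K ρ = (ℓ : K) * C.lamK (C.i z * kq) →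
      algebraMap R K ρ' = (ℓ : K) * C.lamK (C.i z' * kq) → cv.κ ρ = cv.κ ρ' := by
    intro z hz z' hz' h ρ ρ' hρ hρ'
    have h1 : β (f.q (z + (-1 : R) • z')) = 0 := by
      rw [hβadd z hz _ (Submodule.smul_mem _ _ hz'), hβsmul _ z' hz', h, map_neg, map_one, neg_smul,
        one_smul, add_neg_cancel]
    have h2 := hker (z + (-1 : R) • z') (Submodule.add_mem _ hz (Submodule.smul_mem _ _ hz')) h1
      (ρ + (-1) * ρ') (by
        rw [map_add, map_add, map_smul, add_mul, smul_mul_assoc, map_add, hlπ, mul_add,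
          map_mul (algebraMap R K), map_neg, map_one, hρ, hρ']
        ring)
    rw [map_add, map_mul, map_neg, map_one, neg_one_mul, add_neg_eq_zero] at h2
    exact h2
  have hsg : ∃ σ : BT →ₗ[F] F, ∀ z ∈ FxR (cw R α) T, ∀ ρ : R,
      algebraMap R K ρ = (ℓ : K) * C.lamK (C.i z * kq) → σ (β (f.q z)) = cv.κ ρ := by
    have hdef : ∀ z ∈ FxR (cw R α) T, ∀ ρ : R,
        algebraMap R K ρ = (ℓ : K) * C.lamK (C.i z * kq) →
        cv.κ (rt' (zt (β (f.q z))) (hzt _)) = cv.κ ρ := by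
      intro z hz ρ hρ
      exact hwd _ (hzt _) z hz (hbt _) _ _ (hrt _ _) hρ
    refine ⟨{ toFun := fun t => cv.κ (rt' (zt t) (hzt t)), map_add' := ?_, map_smul' := ?_ }, ?_⟩
    · intro s t
      have h1 := hdef (zt s + zt t) (Submodule.add_mem _ (hzt s) (hzt t))
        (rt' (zt s) (hzt s) + rt' (zt t) (hzt t)) (by
          rw [map_add, map_add, add_mul, map_add, mul_add, hrt, hrt])
      have h2 : β (f.q (zt s + zt t)) = s + t := by
        rw [hβadd _ (hzt s) _ (hzt t), hbt, hbt]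
      rw [h2] at h1
      rw [h1, map_add]
    · intro a t
      obtain ⟨r, rfl⟩ := cv.surj a
      have h1 := hdef (r • zt t) (Submodule.smul_mem _ _ (hzt t)) (r * rt' (zt t) (hzt t)) (by
          rw [map_mul (algebraMap R K), map_smul, smul_mul_assoc, hlπ, hrt]
          ring)
      have h2 : β (f.q (r • zt t)) = cv.κ r • t := by
        rw [hβsmul _ _ (hzt t), hbt]
      rw [h2] at h1
      rw [h1, map_mul]
      rfl
    · intro z hz ρ hρ
      exact hdef z hz ρ hρ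
  obtain ⟨σ, hσ⟩ := hsg
  have hmem : ∀ z ∈ FxR (cw R α) T, ∀ z' ∈ FxR (cw R α) T, z * z' ∈ FxR (cw R α) T := by
    intro z hz z' hz' g hg
    have h1 := hcom z hz g hg
    have h2 := hcom z' hz' g hg
    change α g * (z * z' * α g⁻¹) = z * z'
    rw [← mul_assoc, ← mul_assoc, ← h1, mul_assoc z, ← h2, mul_assoc, mul_assoc, ← map_mul,
      mul_inv_cancel, map_one, mul_one]
  have htr : ∀ s t : BT, σ (s * t) = σ (t * s) := by
    intro s t
    obtain ⟨r, hr⟩ := obb1 (zt s) (zt t) u v (hcom _ (hzt s) u hu) (hcom _ (hzt s) v hv)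
      (hcom _ (hzt t) u hu) (hcom _ (hzt t) v hv)
    have h1 := hmem _ (hzt s) _ (hzt t)
    have h2 := hmem _ (hzt t) _ (hzt s)
    have e1 : β (f.q (zt s * zt t)) = s * t := by
      rw [map_mul, hBQ.mul _ (lfx3 _ (hzt s)).1 _ (lfx3 _ (hzt t)).1, hbt, hbt]
    have e2 : β (f.q (zt t * zt s)) = t * s := by
      rw [map_mul, hBQ.mul _ (lfx3 _ (hzt t)).1 _ (lfx3 _ (hzt s)).1, hbt, hbt]
    rw [← e1, ← e2, hσ _ h2 _ (hrt _ h2),
      hσ _ h1 (rt' _ h2 + (ℓ : R) * r) (by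
        rw [map_add, map_mul (algebraMap R K), map_natCast, hr, hrt]
        ring), map_add, hℓ0, add_zero]
  -- the element
  have hnd : ∀ d : BT, (∀ t, lamT (t * d) = 0) → d = 0 := by
    intro d hd
    rw [← hRF.e1 d]
    refine Finset.sum_eq_zero fun k _ => Finset.sum_eq_zero fun g _ => ?_
    rw [hd, zero_smul]
  obtain ⟨w, hw⟩ : ∃ w : BT, ∀ t, lamT (t * w) = σ t := by
    refine ⟨∑ k, ∑ g, σ (xT k * αT g) • (αT g⁻¹ * yT k), fun t => ?_⟩
    rw [Finset.mul_sum, map_sum]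
    conv_rhs => rw [← hRF.e1 t, map_sum]
    refine Finset.sum_congr rfl fun k _ => ?_
    rw [Finset.mul_sum, map_sum, map_sum]
    refine Finset.sum_congr rfl fun g _ => ?_
    rw [mul_smul_comm, map_smul, map_smul, smul_eq_mul, smul_eq_mul, hRF.sym t, mul_comm]
  refine ⟨w, ?_, ?_⟩
  · intro s
    rw [← sub_eq_zero]
    apply hnd
    intro t
    rw [mul_sub, map_sub, ← mul_assoc, hRF.sym (t * w) s, ← mul_assoc, hw, ← mul_assoc, hw, htr,
      sub_self]
  · intro z hz ρ hρ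
    rw [hw]
    exact hσ z hz ρ hρ

end Pool.Agent.PST.H95
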